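import Pool.Agent.Helper65.TU.Stmts
import Pool.Agent.Helper65.TU.Basic

/-! Row C0 (helper20): superposition operators preserve weakly compact sets of `C_0(L)`. -/

set_option autoImplicit false

open Set Filter Topology

namespace Pool.Agent.Helper65.TU

universe u

namespace C020

variable {L : Type u} [TopologicalSpace L] [T2Space L] [LocallyCompactSpace L]

/-- extension by `0` to the one point compactification -/
noncomputable def ext (x : ZeroAtInftyContinuousMap L ℝ) : C(OnePoint L, ℝ) :=
  OnePoint.continuousMapMk ⟨x, x.continuous⟩ 0 (by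
    rw [Filter.coclosedCompact_eq_cocompact]
    exact x.zero_at_infty')

theorem ext_coe (x : ZeroAtInftyContinuousMap L ℝ) (t : L) : ext x (t : OnePoint L) = x t := rfl

theorem ext_inf (x : ZeroAtInftyContinuousMap L ℝ) : ext x (OnePoint.infty : OnePoint L) = 0 := rfl

theorem abs_le_norm (x : ZeroAtInftyContinuousMap L ℝ) (t : L) : |x t| ≤ ‖x‖ := by
  have := x.toBCF.norm_coe_le_norm t
  rw [ZeroAtInftyContinuousMap.norm_toBCF_eq_norm] at this
  exact this

/-- the extension as a continuous linear map -/
noncomputable def E : ZeroAtInftyContinuousMap L ℝ →L[ℝ] C(OnePoint L, ℝ) :=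
  LinearMap.mkContinuous
    { toFun := ext
      map_add' := by
        intro x y
        ext p
        induction p using OnePoint.rec with
        | infty => simp [ext_inf]
        | coe t => simp [ext_coe]
      map_smul' := by
        intro c x
        ext p
        induction p using OnePoint.rec with
        | infty => simp [ext_inf]
        | coe t => simp [ext_coe] } 1 (by
    intro x
    rw [one_mul]
    refine (ContinuousMap.norm_le _ (norm_nonneg x)).2 (fun p => ?_)
    induction p using OnePoint.rec with
    | infty =>
      change ‖ext x (OnePoint.infty : OnePoint L)‖ ≤ ‖x‖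
      rw [ext_inf, norm_zero]
      exact norm_nonneg x
    | coe t =>
      change ‖ext x (t : OnePoint L)‖ ≤ ‖x‖
      rw [ext_coe, Real.norm_eq_abs]
      exact abs_le_norm x t)

/-- `f ↦ f - f ∞` -/
noncomputable def pr (f : C(OnePoint L, ℝ)) : ZeroAtInftyContinuousMap L ℝ where
  toFun t := f (t : OnePoint L) - f (OnePoint.infty : OnePoint L)
  continuous_toFun := (f.continuous.comp OnePoint.continuous_coe).sub continuous_const
  zero_at_infty' := by
    have h1 : Tendsto (fun t : L => f (t : OnePoint L)) (cocompact L)
        (𝓝 (f (OnePoint.infty : OnePoint L))) := by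
      rw [← Filter.coclosedCompact_eq_cocompact]
      exact (f.continuous.tendsto _).comp OnePoint.tendsto_coe_infty
    have h2 := h1.sub_const (f (OnePoint.infty : OnePoint L))
    rwa [sub_self] at h2

theorem pr_coe (f : C(OnePoint L, ℝ)) (t : L) :
    pr f t = f (t : OnePoint L) - f (OnePoint.infty : OnePoint L) := rfl

/-- the projection as a continuous linear map -/
noncomputable def P : C(OnePoint L, ℝ) →L[ℝ] ZeroAtInftyContinuousMap L ℝ :=
  LinearMap.mkContinuous
    { toFun := pr
      map_add' := by
        intro x y
        ext t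
        simp only [pr_coe, ZeroAtInftyContinuousMap.add_apply, ContinuousMap.add_apply]
        ring
      map_smul' := by
        intro c x
        ext t
        simp only [pr_coe, ZeroAtInftyContinuousMap.smul_apply, ContinuousMap.smul_apply,
          smul_eq_mul, RingHom.id_apply]
        ring } 2 (by
    intro f
    change ‖(pr f).toBCF‖ ≤ 2 * ‖f‖
    refine (BoundedContinuousFunction.norm_le (by positivity)).2 (fun t => ?_)
    change ‖f (t : OnePoint L) - f (OnePoint.infty : OnePoint L)‖ ≤ 2 * ‖f‖
    have h1 := f.norm_coe_le_norm (t : OnePoint L)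
    have h2 := f.norm_coe_le_norm (OnePoint.infty : OnePoint L)
    have h3 := norm_sub_le (f (t : OnePoint L)) (f (OnePoint.infty : OnePoint L))
    linarith)

end C020

theorem st_C0 (hG : ST_GRO.{u}) : ST_C0.{u} := by
  intro L _ _ _ K hK φ c h0 hL
  have hφ : Continuous φ := by
    have h1 : LipschitzWith (Real.toNNReal |c|) φ := by
      refine LipschitzWith.of_dist_le_mul (fun a b => ?_)
      rw [Real.coe_toNNReal _ (abs_nonneg c), Real.dist_eq, Real.dist_eq]
      exact (hL a b).trans (mul_le_mul_of_nonneg_right (le_abs_self c) (abs_nonneg _))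
    exact h1.continuous
  have h1 : WCpt (C020.E (L := L) '' K) := hK.image C020.E
  have h2 := hG (OnePoint L) _ h1 φ hφ c hL
  have h3 := h2.image (C020.P (L := L))
  convert h3 using 1
  ext y
  constructor
  · rintro ⟨x, hx, hy⟩
    refine ⟨_, ⟨_, ⟨x, hx, rfl⟩, rfl⟩, ?_⟩
    ext t
    rw [hy t]
    change φ (x t) - φ (C020.ext x (OnePoint.infty : OnePoint L)) = φ (x t)
    rw [C020.ext_inf, h0, sub_zero]
  · rintro ⟨_, ⟨_, ⟨x, hx, rfl⟩, rfl⟩, rfl⟩
    refine ⟨x, hx, fun t => ?_⟩
    change φ (x t) - φ (C020.ext x (OnePoint.infty : OnePoint L)) = φ (x t)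
    rw [C020.ext_inf, h0, sub_zero]

end Pool.Agent.Helper65.TU
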